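import Pool.Agent.W500.FL.Stm

/-!
# Project FL, part PEL: Pellet's formula (Stickelberger's theorem) from the irreducible case
-/

set_option autoImplicit false

namespace Pool.Agent.W676.FL

open Polynomial Pool.Agent.W500.FL

private lemma tri_add (n m : ℕ) :
    (n + m) * (n + m - 1) / 2 = n * (n - 1) / 2 + m * (m - 1) / 2 + n * m := by
  have h1 : 2 ∣ n * (n - 1) := (Nat.even_mul_pred_self n).two_dvd
  have h2 : 2 ∣ m * (m - 1) := (Nat.even_mul_pred_self m).two_dvd
  have h3 : (n + m) * (n + m - 1) = n * (n - 1) + m * (m - 1) + 2 * (n * m) := by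
    rcases n with _ | n
    · simp
    · rcases m with _ | m
      · simp
      · have e1 : n + 1 + (m + 1) - 1 = n + m + 1 := by omega
        have e2 : n + 1 - 1 = n := by omega
        have e3 : m + 1 - 1 = m := by omega
        rw [e1, e2, e3]; ring
  rw [h3]
  obtain ⟨a, ha⟩ := h1
  obtain ⟨b, hb⟩ := h2
  rw [ha, hb]
  have : 2 * a + 2 * b + 2 * (n * m) = 2 * (a + b + n * m) := by ring
  rw [this, Nat.mul_div_cancel_left _ (by norm_num), Nat.mul_div_cancel_left _ (by norm_num),
    Nat.mul_div_cancel_left _ (by norm_num)]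

theorem main : S_LAM → S_J → S_IRR → S_PEL := by
  intro hL hJ hI K _ _ _ hchar
  obtain ⟨hL1, hL2, hL3, hL4⟩ := hL K
  obtain ⟨hJ1, hJ2, hJ3, hJ4, hJ5, hJ6, hJ7⟩ := hJ K
  have hIK := hI K hchar
  have hχ : (quadraticChar K (-1) : ℤ) ^ 2 = 1 :=
    quadraticChar_sq_one (neg_ne_zero.mpr one_ne_zero)
  generalize hχd : (quadraticChar K (-1) : ℤ) = χ at *
  suffices H : ∀ N : ℕ, ∀ G : K[X], G.natDegree = N → G.Monic → jac G (derivative G) ≠ 0 →
      lam G = (-1) ^ G.natDegree * χ ^ (G.natDegree * (G.natDegree - 1) / 2)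
        * jac G (derivative G) by
    intro G hG h0
    exact H _ G rfl hG h0
  intro N
  induction N using Nat.strong_induction_on with
  | _ N ih =>
    intro G hN hG h0
    by_cases hN0 : N = 0
    · have hG1 : G = 1 := hG.natDegree_eq_zero.mp (hN.trans hN0)
      subst hG1
      have e1 : lam (1 : K[X]) = 1 := hL3 1 isUnit_one
      have e2 : jac (1 : K[X]) (derivative 1) = 1 := by
        unfold jac
        simp
      rw [e1, e2]
      simp
    · have hnu : ¬ IsUnit G := by
        intro hu
        apply hN0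
        rw [← hN]
        exact natDegree_eq_zero_of_isUnit hu
      obtain ⟨P, hPm, hPi, hPd⟩ := exists_monic_irreducible_factor G hnu
      obtain ⟨G1, rfl⟩ := hPd
      have hG1 : G1.Monic := hPm.of_mul_monic_left hG
      have hdeg : (P * G1).natDegree = P.natDegree + G1.natDegree := hPm.natDegree_mul hG1
      have hPpos : 0 < P.natDegree := hPi.natDegree_pos
      have hder : derivative (P * G1) = derivative P * G1 + P * derivative G1 := derivative_mul
      have k1 : jac P (derivative P * G1 + P * derivative G1) = jac P (derivative P * G1) :=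
        hJ3 _ _ _ hPm ⟨derivative G1, by ring⟩
      have k2 : jac G1 (derivative P * G1 + P * derivative G1) = jac G1 (P * derivative G1) :=
        hJ3 _ _ _ hG1 ⟨derivative P, by ring⟩
      have k3 : jac (P * G1) (derivative (P * G1)) =
          jac P (derivative P) * jac P G1 * (jac G1 P * jac G1 (derivative G1)) := by
        rw [hder, hJ2 _ _ _ hPm hG1, k1, k2, hJ1 _ _ _ hPm, hJ1 _ _ _ hG1]
      rw [k3] at h0
      have hc0 : jac G1 P ≠ 0 := by
        intro h; apply h0; rw [h]; ring
      have hd0 : jac G1 (derivative G1) ≠ 0 := by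
        intro h; apply h0; rw [h]; ring
      have hc2 : jac G1 P ^ 2 = 1 := by
        rcases hJ7 _ _ hc0 with h | h <;> rw [h] <;> norm_num
      have k4 := hJ5 P G1 hPm hG1
      have ihG := ih G1.natDegree (by rw [← hN, hdeg]; omega) G1 rfl hG1 hd0
      have hIP := hIK P hPm hPi
      rw [k3, hL1 _ _ hPm.ne_zero hG1.ne_zero, hL2 P hPi, ihG, hdeg, tri_add, hIP, k4]
      generalize P.natDegree = n at *
      generalize G1.natDegree = m at *
      generalize n * (n - 1) / 2 = u at *
      generalize m * (m - 1) / 2 = v at *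
      generalize jac G1 P = c at *
      generalize jac G1 (derivative G1) = d at *
      have s1 : ((-1 : ℤ) ^ n) * (-1) ^ n = 1 := by
        rw [← mul_pow]; norm_num
      have s2 : ∀ k : ℕ, χ ^ k * χ ^ k = 1 := by
        intro k
        rw [← mul_pow, ← pow_two, hχ, one_pow]
      have s3 := s2 u
      have s4 := s2 (n * m)
      have s5 : c * c = 1 := by rw [← pow_two]; exact hc2
      rw [pow_add, pow_add, pow_add]
      calc -1 * ((-1) ^ m * χ ^ v * d)
          = -(((-1 : ℤ) ^ n) * (-1) ^ n) * (χ ^ u * χ ^ u) * (χ ^ (n * m) * χ ^ (n * m)) * (c * c)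
              * ((-1) ^ m * χ ^ v * d) := by rw [s1, s3, s4, s5]; ring
        _ = _ := by ring

end Pool.Agent.W676.FL
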